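import Mathlib
import Pool.Agent.N805.JG.Stm

/-!
# JG/BLK: moments of the block sums
(helper862, for helper805)
-/

set_option autoImplicit false

open MeasureTheory Filter Topology
open scoped ENNReal

namespace Pool.Agent.N862.JG

open Pool.Agent.N805.JG

/-- the law of the gaps is a probability measure -/
theorem Q_univ (hM : S_MEAS) (hPr : ∀ M : ℕ, IsProbabilityMeasure (cue M)) {M : ℕ} (hM0 : 0 < M) :
    Q M Set.univ = 1 := by
  have hmeas : ∀ a : ℕ, Measurable fun (θ : Fin M → ℝ) (i : ℕ) => gap θ (a + i) := by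
    intro a
    refine measurable_pi_lambda _ fun i => ?_
    unfold gap
    exact (hM M _).sub (hM M _)
  have hP := hPr M
  unfold Q
  rw [Measure.smul_apply, Measure.finsetSum_apply]
  have h1 : ∀ a ∈ Finset.range M,
      ((cue M).map fun (θ : Fin M → ℝ) (i : ℕ) => gap θ (a + i)) Set.univ = 1 := by
    intro a _
    rw [Measure.map_apply (hmeas a) MeasurableSet.univ, Set.preimage_univ, measure_univ]
  rw [Finset.sum_congr rfl h1, Finset.sum_const, Finset.card_range, nsmul_eq_mul, mul_one,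
    smul_eq_mul]
  exact ENNReal.inv_mul_cancel (by exact_mod_cast hM0.ne') (ENNReal.natCast_ne_top M)

theorem summ (k : ℕ) :
    Summable (fun y : ℕ => ((y : ℝ) + 1) ^ (k + 1) * Real.exp (-(y : ℝ) / 4)) := by
  have h1 := Real.summable_pow_mul_exp_neg_nat_mul (k + 1) (r := 1 / 4) (by norm_num)
  have h2 := ((summable_nat_add_iff 1).2 h1).mul_left (Real.exp (1 / 4))
  refine h2.congr fun y => ?_
  push_cast
  rw [mul_left_comm, ← Real.exp_add]
  congr 2
  ring

theorem term_le (k : ℕ) {m y y0 : ℕ} (hm : 1 ≤ m) (hy0 : 4 * Real.log m ≤ y0) (hy : y0 ≤ y) :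
    ((y : ℝ) + 1) ^ k * (100 * (1 + m + y) * Real.exp (-(y : ℝ) / 2)) ≤
      200 * (((y : ℝ) + 1) ^ (k + 1) * Real.exp (-(y : ℝ) / 4)) := by
  have hm' : (1 : ℝ) ≤ m := by exact_mod_cast hm
  have hy' : (y0 : ℝ) ≤ y := by exact_mod_cast hy
  have hyn : (0 : ℝ) ≤ y := Nat.cast_nonneg y
  have h1 : Real.exp (-(y : ℝ) / 2) = Real.exp (-(y : ℝ) / 4) * Real.exp (-(y : ℝ) / 4) := by
    rw [← Real.exp_add]; congr 1; ring
  have h2 : m * Real.exp (-(y : ℝ) / 4) ≤ 1 := by
    have h3 : Real.exp (-(y : ℝ) / 4) ≤ Real.exp (-Real.log m) := by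
      apply Real.exp_le_exp.2
      linarith
    rw [Real.exp_neg, Real.exp_log (by linarith)] at h3
    calc m * Real.exp (-(y : ℝ) / 4) ≤ m * (m : ℝ)⁻¹ := by gcongr
      _ = 1 := mul_inv_cancel₀ (by linarith)
  have h4 : (1 + m + y : ℝ) ≤ 2 * m * (1 + y) := by nlinarith
  have hE : 0 < Real.exp (-(y : ℝ) / 4) := Real.exp_pos _
  have hpow : 0 ≤ ((y : ℝ) + 1) ^ k := by positivity
  rw [h1]
  calc ((y : ℝ) + 1) ^ k * (100 * (1 + m + y) *
      (Real.exp (-(y : ℝ) / 4) * Real.exp (-(y : ℝ) / 4)))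
      ≤ ((y : ℝ) + 1) ^ k * (100 * (2 * m * (1 + y)) *
      (Real.exp (-(y : ℝ) / 4) * Real.exp (-(y : ℝ) / 4))) := by gcongr
    _ = 200 * (((y : ℝ) + 1) ^ (k + 1) * Real.exp (-(y : ℝ) / 4)) *
      (m * Real.exp (-(y : ℝ) / 4)) := by ring
    _ ≤ 200 * (((y : ℝ) + 1) ^ (k + 1) * Real.exp (-(y : ℝ) / 4)) * 1 := by gcongr
    _ = _ := mul_one _

/-- `S_TAIL`, `S_PROB` are implications, so their hypotheses are needed -/
theorem BLK (hE : S_EIG) (hD : S_DEV) (hP : S_PAIR) (hT : S_DET) : S_BLK := by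
  intro hM hPr hTail k
  have hprob := hPr hE
  have htail := hTail hM hPr hD hP hT
  set Sg : ℝ := ∑' y : ℕ, ((y : ℝ) + 1) ^ (k + 1) * Real.exp (-(y : ℝ) / 4) with hSg
  have hSg0 : 0 ≤ Sg := tsum_nonneg fun y => by positivity
  refine ⟨6 ^ k + 200 * Sg, fun M m hm hmM => ?_⟩
  have hQ1 : Q M Set.univ = 1 := Q_univ hM hprob (by omega)
  have hQf : IsFiniteMeasure (Q M) := ⟨by rw [hQ1]; exact ENNReal.one_lt_top⟩
  set X : (ℕ → ℝ) → ℝ := fun x => |∑ i ∈ Finset.range m, (x i - 1)| with hX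
  have hX0 : ∀ x, 0 ≤ X x := fun x => abs_nonneg _
  have hXm : Measurable X := by
    rw [hX]
    fun_prop
  have hXe : ∀ x, X x = |∑ i ∈ Finset.range m, x i - m| := by
    intro x
    simp [hX, Finset.sum_sub_distrib]
  have hlog : 0 ≤ Real.log m := Real.log_natCast_nonneg m
  set y0 : ℕ := ⌈4 * Real.log m⌉₊ + 1 with hy0
  have hy0a : 4 * Real.log m ≤ y0 := by
    rw [hy0]; push_cast
    have := Nat.le_ceil (4 * Real.log m)
    linarith
  have hy0b : (y0 : ℝ) ≤ 6 * (1 + Real.log m) := by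
    rw [hy0]; push_cast
    have := Nat.ceil_lt_add_one (by positivity : 0 ≤ 4 * Real.log m)
    linarith
  have hset : ∀ y : ℕ, MeasurableSet {x | (y : ℝ) < X x} := fun y =>
    measurableSet_lt measurable_const hXm
  -- pointwise bound
  have hpt : ∀ x, ENNReal.ofReal (X x ^ k) ≤ ENNReal.ofReal ((y0 : ℝ) ^ k) +
      ∑' y : ℕ, (if y0 ≤ y then ENNReal.ofReal (((y : ℝ) + 1) ^ k) else 0) *
        ({x | (y : ℝ) < X x} : Set (ℕ → ℝ)).indicator 1 x := by
    intro x
    by_cases h1 : X x ≤ y0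
    · refine le_add_right ?_
      apply ENNReal.ofReal_le_ofReal
      exact pow_le_pow_left₀ (hX0 x) h1 k
    · push Not at h1
      refine le_add_left ?_
      have hpos : 0 < X x := lt_of_le_of_lt (Nat.cast_nonneg y0) h1
      obtain ⟨n, hn⟩ : ∃ n : ℕ, n + 1 = ⌈X x⌉₊ := ⟨⌈X x⌉₊ - 1, by
        have := Nat.ceil_pos.2 hpos; omega⟩
      have h2 : (n : ℝ) < X x := by
        apply Nat.lt_ceil.1
        omega
      have h3 : X x ≤ (n : ℝ) + 1 := by
        have := Nat.le_ceil (X x)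
        rw [← hn] at this
        push_cast at this
        exact this
      have h4 : y0 ≤ n := by
        have h5 : (y0 : ℝ) < (n : ℝ) + 1 := lt_of_lt_of_le h1 h3
        have h6 : y0 < n + 1 := by exact_mod_cast h5
        omega
      refine le_trans ?_ (ENNReal.le_tsum n)
      rw [if_pos h4, Set.indicator_of_mem (by exact h2), Pi.one_apply, mul_one]
      apply ENNReal.ofReal_le_ofReal
      exact pow_le_pow_left₀ (hX0 x) h3 k
  -- the integral
  have hint : ∫⁻ x, ENNReal.ofReal (X x ^ k) ∂(Q M) ≤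
      ENNReal.ofReal ((y0 : ℝ) ^ k + 200 * Sg) := by
    calc ∫⁻ x, ENNReal.ofReal (X x ^ k) ∂(Q M)
        ≤ ∫⁻ x, (ENNReal.ofReal ((y0 : ℝ) ^ k) +
          ∑' y : ℕ, (if y0 ≤ y then ENNReal.ofReal (((y : ℝ) + 1) ^ k) else 0) *
            ({x | (y : ℝ) < X x} : Set (ℕ → ℝ)).indicator 1 x) ∂(Q M) := lintegral_mono hpt
      _ = ENNReal.ofReal ((y0 : ℝ) ^ k) +
          ∑' y : ℕ, (if y0 ≤ y then ENNReal.ofReal (((y : ℝ) + 1) ^ k) else 0) *
            (Q M) {x | (y : ℝ) < X x} := by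
          rw [lintegral_add_left measurable_const, lintegral_const, hQ1, mul_one, lintegral_tsum]
          · congr 1
            refine tsum_congr fun y => ?_
            rw [lintegral_const_mul _ (measurable_one.indicator (hset y)),
              lintegral_indicator_one (hset y)]
          · intro y
            exact ((measurable_one.indicator (hset y)).const_mul _).aemeasurable
      _ ≤ ENNReal.ofReal ((y0 : ℝ) ^ k) +
          ∑' y : ℕ, ENNReal.ofReal (200 * (((y : ℝ) + 1) ^ (k + 1) * Real.exp (-(y : ℝ) / 4))) := by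
          refine add_le_add le_rfl (ENNReal.tsum_le_tsum fun y => ?_)
          by_cases hy : y0 ≤ y
          · rw [if_pos hy]
            have h1 : (Q M) {x | (y : ℝ) < X x} ≤
                ENNReal.ofReal (100 * (1 + m + y) * Real.exp (-(y : ℝ) / 2)) := by
              have h2 := htail M m y hm hmM (by omega)
              have h3 : {x : ℕ → ℝ | (y : ℝ) < |∑ i ∈ Finset.range m, x i - m|} =
                  {x | (y : ℝ) < X x} := by
                ext x
                rw [Set.mem_ofPred_eq, Set.mem_ofPred_eq, hXe]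
              rw [h3] at h2
              rw [← ENNReal.ofReal_toReal (measure_ne_top (Q M) {x | (y : ℝ) < X x})]
              exact ENNReal.ofReal_le_ofReal h2
            calc ENNReal.ofReal (((y : ℝ) + 1) ^ k) * (Q M) {x | (y : ℝ) < X x}
                ≤ ENNReal.ofReal (((y : ℝ) + 1) ^ k) *
                  ENNReal.ofReal (100 * (1 + m + y) * Real.exp (-(y : ℝ) / 2)) := by gcongr
              _ = ENNReal.ofReal (((y : ℝ) + 1) ^ k *
                  (100 * (1 + m + y) * Real.exp (-(y : ℝ) / 2))) :=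
                  (ENNReal.ofReal_mul (by positivity)).symm
              _ ≤ _ := ENNReal.ofReal_le_ofReal (term_le k hm hy0a hy)
          · rw [if_neg hy, zero_mul]
            exact zero_le
      _ = ENNReal.ofReal ((y0 : ℝ) ^ k + 200 * Sg) := by
          rw [← ENNReal.ofReal_tsum_of_nonneg (fun y => by positivity) ((summ k).mul_left 200),
            tsum_mul_left, ENNReal.ofReal_add (by positivity) (by positivity)]
  have hnn : 0 ≤ᵐ[Q M] fun x => X x ^ k := Eventually.of_forall fun x => pow_nonneg (hX0 x) k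
  have hmeas : AEStronglyMeasurable (fun x => X x ^ k) (Q M) := (hXm.pow_const k).aestronglyMeasurable
  refine ⟨⟨hmeas, ?_⟩, ?_⟩
  · rw [hasFiniteIntegral_iff_ofReal hnn]
    exact lt_of_le_of_lt hint ENNReal.ofReal_lt_top
  · rw [integral_eq_lintegral_of_nonneg_ae hnn hmeas]
    have h1 : (∫⁻ x, ENNReal.ofReal (X x ^ k) ∂(Q M)).toReal ≤ (y0 : ℝ) ^ k + 200 * Sg := by
      have h2 := ENNReal.toReal_mono ENNReal.ofReal_ne_top hint
      rwa [ENNReal.toReal_ofReal (by positivity)] at h2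
    refine h1.trans ?_
    have h3 : (y0 : ℝ) ^ k ≤ (6 * (1 + Real.log m)) ^ k :=
      pow_le_pow_left₀ (Nat.cast_nonneg _) hy0b k
    have h4 : (1 : ℝ) ≤ (1 + Real.log m) ^ k := one_le_pow₀ (by linarith)
    rw [mul_pow] at h3
    nlinarith

end Pool.Agent.N862.JG
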